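import Pool.Agent.Work.MP_8f87b2_mid.InAE
import Pool.Agent.Work.MP_8f87b2_fin.Win

/-!
# One bead in a word, and the first maximum after two bare inflations

`bd n p`: one bead in the gap `p`. `ins_bd_left`, `ins_bd_right`: the word of a component with the bead. `fm_bead`: if the bead
is in a gap `p < ht t` then the first maximum of `inf (inf (ins t (bd p)))` ends a run `1^4` and is followed by `0^4 ..`.
-/

set_option autoImplicit false

namespace Pool.OddHC

open Finset BinaryTree Multiset Pool.OddHop H1

namespace M1

variable {i j k : ℕ}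

/-- one bead in the gap `p` -/
def bd (n p : ℕ) : List ℕ := List.replicate p 0 ++ 1 :: List.replicate (2 * n - p) 0

theorem bd_length {n p : ℕ} (h : p ≤ 2 * n) : (bd n p).length = 2 * n + 1 := by
  unfold bd
  rw [List.length_append, List.length_cons, List.length_replicate, List.length_replicate]
  omega

theorem bd_sum (n p : ℕ) : (bd n p).sum = 1 := by
  unfold bd
  rw [List.sum_append, List.sum_cons, List.sum_replicate, List.sum_replicate]
  simp

theorem bd_zero (n : ℕ) : bd n 0 = 1 :: List.replicate (2 * n) 0 := rfl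

theorem ins_bd_zero (t : BinaryTree Unit) : ins t (bd t.numNodes 0) = .nil △ inf t := by
  rw [bd_zero, ins_lv]
  rfl

theorem ins_bd_left {A D : BinaryTree Unit} {p : ℕ} (hp : p ≤ 2 * A.numNodes) :
    ins (A △ D) (bd (A △ D).numNodes (p + 1)) =
      ins A (bump A (bd A.numNodes p)) △ inf D := by
  have e1 : (A △ D).numNodes = A.numNodes + D.numNodes + 1 := rfl
  have e2 : bd (A △ D).numNodes (p + 1) =
      0 :: (bd A.numNodes p ++ List.replicate (2 * D.numNodes + 1) 0) := by
    unfold bd
    rw [List.replicate_succ, List.cons_append, List.append_assoc, List.cons_append,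
      List.replicate_append_replicate, e1]
    congr 4
    omega
  rw [e2, ins, List.headD_cons, List.tail_cons, List.take_left' (bd_length hp), List.drop_succ_cons,
    List.drop_left' (bd_length hp)]
  rfl

theorem ins_bd_right {A D : BinaryTree Unit} (p : ℕ) :
    ins (A △ D) (bd (A △ D).numNodes (2 * A.numNodes + 2 + p)) =
      inf1 A △ ins D (bd D.numNodes p) := by
  have e1 : (A △ D).numNodes = A.numNodes + D.numNodes + 1 := rfl
  have e2 : bd (A △ D).numNodes (2 * A.numNodes + 2 + p) =
      0 :: (List.replicate (2 * A.numNodes + 1) 0 ++ bd D.numNodes p) := by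
    have e3 : 2 * A.numNodes + 2 + p = (2 * A.numNodes + 1 + p) + 1 := by omega
    have e4 : 2 * (A.numNodes + D.numNodes + 1) - (2 * A.numNodes + 1 + p + 1) =
        2 * D.numNodes - p := by omega
    unfold bd
    rw [← List.append_assoc, List.replicate_append_replicate, ← List.cons_append,
      ← List.replicate_succ, e1, e3, e4]
  rw [e2, ins, List.headD_cons, List.tail_cons, List.take_left' List.length_replicate,
    List.drop_succ_cons, List.drop_left' List.length_replicate]
  have e4 := ins_bump A 0
  rw [lv] at e4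
  rw [List.replicate_succ (n := 2 * A.numNodes), e4, lv]

/-! ### Contents and syntactic form (as in `h58/InA0`) -/

theorem cont_one (n : ℕ) : ∀ {A : BinaryTree Unit}, cont A = {n + 1} → A = ch (n + 1) := by
  induction n with
  | zero =>
    intro A h
    have hn := cont_sum A
    rw [h, Multiset.sum_singleton] at hn
    cases A with
    | nil => simp [BinaryTree.numNodes] at hn
    | node _ C D =>
      change 1 = C.numNodes + D.numNodes + 1 at hn
      cases C with
      | nil =>
        cases D with
        | nil => rfl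
        | node _ _ _ => simp [BinaryTree.numNodes] at hn
      | node _ _ _ => simp [BinaryTree.numNodes] at hn
  | succ n ih =>
    intro A h
    cases A with
    | nil =>
      rw [cont_nil] at h
      exact absurd h.symm (by simp)
    | node _ C D =>
      have hD : D = .nil := by
        by_contra hD
        have h1 : Multiset.card (cont (C △ D)) = 1 := by
          rw [show cont (C △ D) = {n + 1 + 1} from h]; rfl
        rw [cont_node, Multiset.card_add] at h1
        have h2 : 0 < Multiset.card (raise (cont C)) := Multiset.card_pos.2 (raise_ne_zero _)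
        have h3 : 0 < Multiset.card (cont D) :=
          Multiset.card_pos.2 (fun h4 => hD (cont_eq_zero.1 h4))
        omega
      subst hD
      have h1 : raise (cont C) = {n + 1 + 1} := by
        have h2 : cont (C △ .nil) = {n + 1 + 1} := h
        rwa [cont_node, cont_nil, add_zero] at h2
      have hC : C ≠ .nil := by
        rintro rfl
        rw [cont_nil, raise_zero] at h1
        have := Multiset.singleton_inj.1 h1
        omega
      have hc0 : cont C ≠ 0 := fun h4 => hC (cont_eq_zero.1 h4)
      unfold raise at h1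
      rw [← Multiset.cons_zero, Multiset.cons_eq_cons] at h1
      have h5 : (cont C).sup + 1 = n + 1 + 1 ∧ (cont C).erase (cont C).sup = 0 := by
        rcases h1 with h1 | ⟨h1, cs, h2, h3⟩
        · exact h1
        · exact absurd h3.symm (by simp)
      have h8 := Multiset.cons_erase (sup_mem hc0)
      rw [h5.2, show (cont C).sup = n + 1 by omega] at h8
      rw [ih h8.symm]
      rfl

/-- all parts at least `g` -/
theorem hg_of_cont {g : ℕ} (hg2 : 2 ≤ g) : ∀ {t : BinaryTree Unit}, (∀ x ∈ cont t, g ≤ x) → hg g t := by
  intro t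
  induction t with
  | nil => intro _; trivial
  | node u A C ihA ihC =>
    intro h
    have h' : ∀ x ∈ raise (cont A) + cont C, g ≤ x := h
    have h1 : ∀ x ∈ raise (cont A), g ≤ x := fun x hx => h' x (Multiset.mem_add.2 (Or.inl hx))
    have h2 : ∀ x ∈ cont C, g ≤ x := fun x hx => h' x (Multiset.mem_add.2 (Or.inr hx))
    refine ⟨?_, ihC h2⟩
    have h3 : g ≤ (cont A).sup + 1 := h1 _ (by unfold raise; exact Multiset.mem_cons_self _ _)
    have hA0 : A ≠ .nil := by
      rintro rfl
      rw [cont_nil, Multiset.sup_zero] at h3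
      simp at h3
      omega
    have hc0 : cont A ≠ 0 := fun h4 => hA0 (cont_eq_zero.1 h4)
    have h4 : ∀ x ∈ (cont A).erase (cont A).sup, g ≤ x := fun x hx =>
      h1 x (by unfold raise; exact Multiset.mem_cons_of_mem hx)
    rcases Nat.lt_or_ge (cont A).sup g with h5 | h5
    · left
      have h6 : (cont A).sup = (g - 2) + 1 := by omega
      have h7 : (cont A).erase (cont A).sup = 0 := by
        rw [Multiset.eq_zero_iff_forall_notMem]
        intro x hx
        have h8 := h4 x hx
        have h9 := Multiset.le_sup (Multiset.mem_of_mem_erase hx)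
        omega
      have h8 := Multiset.cons_erase (sup_mem hc0)
      rw [h7, h6] at h8
      rw [show g - 1 = (g - 2) + 1 by omega]
      exact cont_one _ h8.symm
    · right
      refine ⟨hA0, ihA ?_⟩
      intro x hx
      by_cases hx1 : x = (cont A).sup
      · omega
      · exact h4 x ((Multiset.mem_erase_of_ne hx1).2 hx)

/-- three bare inflations: all solitons at least `4` -/
theorem hg4_inf3 (t : BinaryTree Unit) : hg 4 (inf (inf (inf t))) := by
  apply hg_of_cont (by norm_num)
  intro x hx
  rw [cont_inf, cont_inf, cont_inf, Multiset.map_map, Multiset.map_map, Multiset.mem_map] at hx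
  obtain ⟨y, hy, rfl⟩ := hx
  have := cont_pos _ _ hy
  change 4 ≤ y + 1 + 1 + 1
  omega

/-! ### First maxima -/

/-- first maximum behind a run `1^4`, followed by `0^5`, `0^4 1^4` or the end -/
structure FA (t : BinaryTree Unit) (a b : List Bool) : Prop where
  fm : FM t a b
  up : ∃ a', a = a' ++ List.replicate 3 true
  dn : Aft 4 b

theorem FA.app_left {P t : BinaryTree Unit} {a b : List Bool} (h : FA t a b)
    (hP : OddHC.ht P < OddHC.ht t) : FA (app P t) (wd P ++ a) b := by
  obtain ⟨a', h1⟩ := h.up
  exact ⟨h.fm.app_left (by rw [H1.ht_eq, H1.ht_eq]; exact hP), ⟨wd P ++ a', by rw [h1]; simp⟩, h.dn⟩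

theorem aft_cons {b : List Bool} (h : Aft 4 b) (c : List Bool) : Aft 4 (b ++ false :: c) := by
  obtain ⟨v, h6, h7⟩ := h
  refine ⟨v ++ false :: c, by rw [h6]; simp, ?_⟩
  rcases h7 with rfl | ⟨r, rfl⟩ | ⟨r, rfl⟩
  · exact Or.inr (Or.inl ⟨_, rfl⟩)
  · exact Or.inr (Or.inl ⟨_, rfl⟩)
  · exact Or.inr (Or.inr ⟨_, by rw [List.append_assoc]⟩)

theorem FA.node {A Z : BinaryTree Unit} {a b : List Bool} (h : FA A a b)
    (hZ : OddHC.ht Z ≤ OddHC.ht A + 1) : FA (A △ Z) (true :: a) (b ++ false :: wd Z) := by
  obtain ⟨a', h1⟩ := h.up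
  exact ⟨h.fm.node (by rw [H1.ht_eq, H1.ht_eq]; exact hZ), ⟨true :: a', by rw [h1]; simp⟩,
    aft_cons h.dn _⟩

theorem FA_of_hg {t : BinaryTree Unit} (h : hg 4 t) (h0 : t ≠ .nil) : ∃ a b, FA t a b := by
  obtain ⟨-, a, b, h3, h4, h5⟩ := hg_FM (by norm_num) h h0
  exact ⟨a, b, h3, h4, h5⟩

theorem ht_inf3 {t : BinaryTree Unit} (h : t ≠ .nil) :
    OddHC.ht (inf (inf (inf t))) = OddHC.ht t + 3 := by
  rw [ht_inf (inf_ne_nil (inf_ne_nil h)), ht_inf (inf_ne_nil h), ht_inf h]

theorem ht_inf3_le (t : BinaryTree Unit) : OddHC.ht (inf (inf (inf t))) ≤ OddHC.ht t + 3 := by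
  have := ht_inf_le t
  have := ht_inf_le (inf t)
  have := ht_inf_le (inf (inf t))
  omega

/-- the height of `C(A, e)` inside a component -/
theorem ht_ins_bump {A : BinaryTree Unit} {e : List ℕ} (he : e.length = 2 * A.numNodes + 1) :
    OddHC.ht (ins A (bump A e)) ≤ OddHC.ht A + 1 := by
  have hn : e ≠ [] := by
    rintro rfl
    simp at he
  rw [OddHC.ht_eq, OddHC.ht_eq, cont_ins _ _ (by rw [bump_length hn]; exact he), Multiset.sup_le]
  intro b hb
  rcases Multiset.mem_add.1 hb with hb | hb
  · obtain ⟨y, hy, rfl⟩ := Multiset.mem_map.1 hb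
    have := Multiset.le_sup hy
    omega
  · have := Multiset.eq_of_mem_replicate hb
    omega

theorem inf_inf_node {X D : BinaryTree Unit} (h : X ≠ .nil) :
    inf (inf (X △ inf D)) = inf (inf X) △ inf (inf (inf D)) := by
  rw [inf_node, inf_node, inf1_eq h, inf1_eq (inf_ne_nil h)]

/-- **the first maximum with a bead before it** -/
theorem fm_bead : ∀ (t : BinaryTree Unit) (p : ℕ), p < OddHC.ht t →
    OddHC.ht (inf (inf (ins t (bd t.numNodes p)))) = OddHC.ht t + 3 ∧
      ∃ a b, FA (inf (inf (ins t (bd t.numNodes p)))) a b := by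
  intro t
  induction t with
  | nil => intro p hp; exact absurd hp (Nat.not_lt_zero _)
  | node _ A D ihA ihD =>
    intro p hp
    change p < OddHC.ht (A △ D) at hp
    change OddHC.ht (inf (inf (ins (A △ D) (bd (A △ D).numNodes p)))) = OddHC.ht (A △ D) + 3 ∧
      ∃ a b, FA (inf (inf (ins (A △ D) (bd (A △ D).numNodes p)))) a b
    have hlt := ht_le_nm A
    rcases Nat.eq_zero_or_pos p with rfl | hp0
    · -- the bead in front
      rw [ins_bd_zero]
      have e1 : inf (inf (.nil △ inf (A △ D))) = ((.nil △ .nil) △ .nil) △ inf (inf (inf (A △ D))) := by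
        rw [inf_node, inf_node]
        rfl
      rw [e1]
      have h1 := ht_inf3 (t := A △ D) (by simp)
      have h2 : OddHC.ht (((.nil : BinaryTree Unit) △ .nil) △ .nil) = 2 := rfl
      obtain ⟨a, b, h3⟩ := FA_of_hg (hg4_inf3 (A △ D)) (inf_ne_nil (inf_ne_nil (inf_ne_nil (by simp))))
      refine ⟨by rw [ht_node, h1, h2]; omega, _, _, h3.app_left (P := ((.nil △ .nil) △ .nil) △ .nil) ?_⟩
      rw [h1, ht_node, h2]
      have h4 : OddHC.ht (.nil : BinaryTree Unit) = 0 := rfl
      omega
    · rcases Nat.lt_or_ge p (2 * A.numNodes + 2) with h1 | h1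
      · -- the bead in the first component
        obtain ⟨q, rfl⟩ : ∃ q, p = q + 1 := ⟨p - 1, by omega⟩
        have hq : q ≤ 2 * A.numNodes := by omega
        rw [ins_bd_left hq]
        have hX := ins_ne_nil A (bd A.numNodes q)
        rw [inf_inf_node hX]
        have hXl := ht_ins_bump (A := A) (bd_length hq)
        have hX2 : OddHC.ht (inf (inf (ins A (bump A (bd A.numNodes q))))) =
            OddHC.ht (ins A (bump A (bd A.numNodes q))) + 2 := by
          rw [ht_inf (inf_ne_nil hX), ht_inf hX]
        rw [ht_node] at hp ⊢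
        rw [ht_node]
        rcases Nat.lt_or_ge q (OddHC.ht A) with h2 | h2
        · have hA : A ≠ .nil := by
            rintro rfl
            exact absurd h2 (Nat.not_lt_zero _)
          have hb : bump A (bd A.numNodes q) = bd A.numNodes q := by
            cases A with
            | nil => exact absurd rfl hA
            | node _ _ _ => rfl
          obtain ⟨h3, a, b, h4⟩ := ihA q h2
          rw [hb] at hX2 ⊢
          by_cases hD : D = .nil
          · subst hD
            have h5 : OddHC.ht (.nil : BinaryTree Unit) = 0 := rfl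
            have h6 : inf (inf (inf (.nil : BinaryTree Unit))) = .nil := rfl
            rw [h6, h3, h5]
            exact ⟨by omega, _, _, h4.node (by rw [h5]; omega)⟩
          · have h5 := ht_inf3 hD
            rw [h5, h3]
            refine ⟨by omega, ?_⟩
            rcases Nat.lt_or_ge (OddHC.ht A + 3 + 1) (OddHC.ht D + 3) with h6 | h6
            · obtain ⟨a, b, h7⟩ := FA_of_hg (hg4_inf3 D) (inf_ne_nil (inf_ne_nil (inf_ne_nil hD)))
              refine ⟨_, _, h7.app_left (P := inf (inf (ins A (bd A.numNodes q))) △ .nil) ?_⟩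
              rw [h5, ht_node, h3]
              have h8 : OddHC.ht (.nil : BinaryTree Unit) = 0 := rfl
              omega
            · exact ⟨_, _, h4.node (by rw [h5, h3]; exact h6)⟩
        · have hD : D ≠ .nil := by
            rintro rfl
            have h5 : OddHC.ht (.nil : BinaryTree Unit) = 0 := rfl
            omega
          have h5 := ht_inf3 hD
          rw [h5, hX2]
          refine ⟨by omega, ?_⟩
          obtain ⟨a, b, h7⟩ := FA_of_hg (hg4_inf3 D) (inf_ne_nil (inf_ne_nil (inf_ne_nil hD)))
          refine ⟨_, _, h7.app_left (P := inf (inf (ins A (bump A (bd A.numNodes q)))) △ .nil) ?_⟩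
          rw [h5, ht_node, hX2]
          have h8 : OddHC.ht (.nil : BinaryTree Unit) = 0 := rfl
          omega
      · -- the bead behind the first component
        obtain ⟨q, rfl⟩ : ∃ q, p = 2 * A.numNodes + 2 + q := ⟨p - (2 * A.numNodes + 2), by omega⟩
        rw [ht_node] at hp ⊢
        have hq : q < OddHC.ht D := by omega
        have hqn := ht_le_nm D
        have hD : D ≠ .nil := by
          rintro rfl
          exact absurd hq (Nat.not_lt_zero _)
        rw [ins_bd_right]
        obtain ⟨h3, a, b, h4⟩ := ihD q hq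
        rw [inf_node, inf_node]
        have h5 : OddHC.ht (inf1 (inf1 (inf1 A))) = OddHC.ht A + 3 := by
          rw [ht_inf1, ht_inf1, ht_inf1]
        rw [ht_node, h3, h5]
        refine ⟨by omega, _, _, h4.app_left (P := inf1 (inf1 (inf1 A)) △ .nil) ?_⟩
        rw [h3, ht_node, h5]
        have h8 : OddHC.ht (.nil : BinaryTree Unit) = 0 := rfl
        omega

end M1

end Pool.OddHC
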