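import Pool.Agent.Work.MP_8f87b2_h17.Nat4
import Pool.Agent.Work.MP_8f87b2_end.End

/-!
# A phase with the smallest big soliton at the end and one small soliton near the start

`v1 = C(v0, δ_x)`, all parts of `v0` at least `y + 1`, `y + 1` is one of them: at some time `i`
`T^i v0 = ρ [y+1]`, `T^i v1 = C(ρ [y+1], δ_p)` with `1 ≤ p ≤ y + 1`.
-/

set_option autoImplicit false

namespace Pool.OddHC

open Finset BinaryTree Multiset Pool.OddHop

namespace M1

variable {i j k : ℕ}

/-- contents of `iy` -/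
theorem cont_iy (t : BinaryTree Unit) (e : List ℕ) (he : e.length = 2 * t.numNodes + 1) :
    ∀ y : ℕ, cont (iy (y + 1) t e) = (cont t).map (· + (y + 1)) + replicate e.sum (y + 1) := by
  intro y
  induction y with
  | zero =>
    change cont (ins t e) = _
    rw [cont_ins t e he]
  | succ y ih =>
    change cont (inf (iy (y + 1) t e)) = _
    rw [cont_inf, ih, Multiset.map_add, Multiset.map_map, Multiset.map_replicate]
    rfl

/-- deflation of a tree without small parts -/
theorem exists_iy : ∀ (y : ℕ) (t : BinaryTree Unit), (∀ x ∈ cont t, y + 1 ≤ x) →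
    ∃ (u : BinaryTree Unit) (e : List ℕ), e.length = 2 * u.numNodes + 1 ∧ t = iy (y + 1) u e := by
  intro y
  induction y with
  | zero =>
    intro t _
    exact ⟨(red t).1, (red t).2, red_len t, (ins_red t).symm⟩
  | succ y ih =>
    intro t h
    have h1 : (cont t).count 1 = 0 := by
      rw [Multiset.count_eq_zero]
      intro h1
      have := h 1 h1
      omega
    have h2 : (red t).2.sum = 0 := by
      rw [← count_one_ins _ _ (red_len t), ins_red]
      exact h1
    have h3 : (red t).2 = List.replicate (2 * (red t).1.numNodes + 1) 0 := by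
      rw [List.eq_replicate_iff]
      refine ⟨red_len t, fun x hx => ?_⟩
      have := List.single_le_sum (fun y _ => Nat.zero_le y) x hx
      omega
    have h4 : t = inf (red t).1 := by
      unfold inf
      rw [← h3, ins_red]
    obtain ⟨u, e, h5, h6⟩ := ih (red t).1 (fun x hx => by
      have h7 : x + 1 ∈ cont t := by
        rw [h4, cont_inf]
        exact Multiset.mem_map_of_mem _ hx
      have := h _ h7
      omega)
    exact ⟨u, e, h5, by rw [h4, h6]; rfl⟩

/-- a soliton `y + 1` in the last gap -/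
theorem iy_last (u : X j) (f : ZMod (2 * j + 1) → ℕ) : ∀ y : ℕ,
    iy (y + 1) u.1 (lf (fun x => f x + if x = -1 then 1 else 0)) =
      app (iy (y + 1) u.1 (lf f)) (pc (y + 1)) := by
  intro y
  induction y with
  | zero => exact ins_back u f
  | succ y ih =>
    change inf (iy (y + 1) u.1 _) = app (inf (iy (y + 1) u.1 (lf f))) _
    rw [ih, inf_app, inf_pc (by omega)]

/-- **THE PHASE** -/
theorem phase_p {v0 : X j} {v1 : X k} {x : ZMod (2 * j + 1)}
    (h1 : v1.1 = ins v0.1 (lf (dl j x))) {y : ℕ} (hmin : ∀ z ∈ cont v0.1, y + 1 ≤ z)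
    (hy : y + 1 ∈ cont v0.1) :
    ∃ (t p : ℕ) (ρ : BinaryTree Unit), 1 ≤ p ∧ p ≤ y + 1 ∧
      ((TT ^ t) v0).1 = app ρ (pc (y + 1)) ∧
      ((TT ^ t) v1).1 = ins ((TT ^ t) v0).1 (lf (dl j (p : ZMod (2 * j + 1)))) := by
  obtain ⟨u0, e, he, hu⟩ := exists_iy y v0.1 hmin
  obtain ⟨i, u, rfl⟩ : ∃ (i : ℕ) (u : X i), u.1 = u0 :=
    ⟨u0.numNodes, ⟨u0, mem_treesOfNumNodesEq.2 rfl⟩, rfl⟩
  have hs : e.sum ≠ 0 := by
    intro h0
    rw [hu, cont_iy u.1 e he, h0, Multiset.replicate_zero, add_zero, Multiset.mem_map] at hy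
    obtain ⟨z, hz, hz2⟩ := hy
    have := cont_pos _ _ hz
    omega
  rw [X_num] at he
  obtain ⟨b, rfl⟩ := exists_lf he
  obtain ⟨y0, hy0⟩ : ∃ y0, 1 ≤ b y0 := by
    by_contra h
    push Not at h
    apply hs
    rw [lf_sum]
    exact Finset.sum_eq_zero fun z _ => by have := h z; omega
  have hj : 1 ≤ j := by
    rcases Nat.eq_zero_or_pos j with rfl | h
    · exfalso
      have h2 : v0.1 = .nil := by
        have h3 := X_num v0
        cases h4 : v0.1 with
        | nil => rfl
        | node a A B =>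
          rw [h4] at h3
          have h5 : (BinaryTree.node a A B).numNodes = A.numNodes + B.numNodes + 1 := rfl
          omega
      rw [h2, cont_nil] at hy
      exact absurd hy (Multiset.notMem_zero _)
    · exact h
  obtain ⟨q, hq⟩ : ∃ q, q = y0 + 1 := ⟨_, rfl⟩
  obtain ⟨n0, hn0⟩ : ∃ n0 : ℕ, n0 = (x - (q.val : ZMod (2 * j + 1)) - 1).val := ⟨_, rfl⟩
  have hn1 : (n0 : ZMod (2 * j + 1)) = x - (q.val : ZMod (2 * j + 1)) - 1 := by
    rw [hn0, ZMod.natCast_zmod_val]
  obtain ⟨t, h2, h3⟩ := natp hj u (lf b) (lf_length b) y v0 hu q ((n0 / (y + 1) : ℕ) : ZMod (2 * j + 1))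
  have hxp : x - sp v0 t = ((n0 % (y + 1) + 1 : ℕ) : ZMod (2 * j + 1)) := by
    have e1 : ((y + 1) * (n0 / (y + 1)) + n0 % (y + 1) : ℕ) = n0 := Nat.div_add_mod _ _
    have e2 : (((y + 1) * (n0 / (y + 1)) + n0 % (y + 1) : ℕ) : ZMod (2 * j + 1)) = n0 := by rw [e1]
    rw [hn1] at e2
    rw [h3]
    push_cast at e2 ⊢
    linear_combination -e2
  refine ⟨t, n0 % (y + 1) + 1, iy (y + 1) ((TT ^ t) u).1
    (lf fun a => b (a + q) - if a = -1 then 1 else 0), by omega, ?_, ?_, ?_⟩
  · have := Nat.mod_lt n0 (show 0 < y + 1 by omega)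
    omega
  · rw [word_iy_lf u b t y v0 hu, ← iy_last]
    congr 2
    funext a
    rw [h2]
    by_cases ha : a = -1
    · subst ha
      have e1 : (-1 + q : ZMod (2 * i + 1)) = y0 := by rw [hq]; ring
      rw [e1, if_pos rfl]
      omega
    · rw [if_neg ha]
      rfl
  · have h4 := word_iy_lf v0 (dl j x) t 0 v1 h1
    refine h4.trans ?_
    change ins _ _ = ins _ _
    congr 2
    funext a
    unfold dl
    have : (a + sp v0 t = x) ↔ a = ((n0 % (y + 1) + 1 : ℕ) : ZMod (2 * j + 1)) := by
      rw [← hxp]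
      constructor
      · intro h
        rw [← h]
        ring
      · rintro rfl
        ring
    simp only [this]

end M1

end Pool.OddHC
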