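import Pool.Agent.Work.MP_8f87b2_fin.Blk2

/-!
# The classes `(V; 0, 1)`

`j2 + 2 |V| + 1 = k`: there is only one class over `V`, with one family. `cls_win1`: a window at any T-cycle of the class.
`cls_y1`: a guest at any T-cycle of the class. `part_m1`, `reg_m1`: the region of `V`.
-/

set_option autoImplicit false

namespace Pool.OddHC

open Finset BinaryTree Multiset Pool.OddHop

variable {i j j2 k : ℕ} {τ : Type} {P : τ → Set (Cyc k) → DG k → Prop} {V : Cyc j2}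

/-- the data of a T-cycle over `V` -/
theorem m1_data (hk : j2 + 2 * pkc V + 1 = k) {p : Cyc k} (h : Rd (Rd p).2 = ⟨j2, V⟩) :
    ∃ U : Cyc (j2 + pkc V), Rd p = ⟨j2 + pkc V, U⟩ ∧ Rd U = ⟨j2, V⟩ ∧ (contc U).count 1 = 0 ∧
      (j2 + pkc V) + pkc U + 1 = k ∧ cl p ∈ vcl k V 0 := by
  obtain ⟨j, U, a1, a2, a3, a4, a5, a6⟩ := ov_data h
  obtain rfl : j = j2 + pkc V := by omega
  exact ⟨U, a1, a2, by omega, by omega, mem_vcl.2 ⟨h, by omega⟩⟩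

theorem m1_mem (hk : j2 + 2 * pkc V + 1 = k) {p : Cyc k} :
    cl p ∈ vcl k V 0 ↔ Rd (Rd p).2 = ⟨j2, V⟩ :=
  ⟨fun h => (mem_vcl.1 h).1, fun h => (m1_data hk h).choose_spec.2.2.2.2⟩

/-- **a window at any T-cycle of the class** -/
theorem cls_win1 (hk : j2 + 2 * pkc V + 1 = k)
    (env : ∀ p0 : Cyc k, Rd (Rd p0).2 = ⟨j2, V⟩ → ClsEnv (AEP P) P P (cl p0))
    {w : Cyc k} (hw : Rd (Rd w).2 = ⟨j2, V⟩) (hty : Typd P P {w}) {X : Set (Cyc k)} {p0 : Cyc k}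
    (hp0 : cl p0 ∈ vcl k V 0) (hX : ∀ c ∈ X, cl c ≠ cl p0) :
    ∃ Gp Gw, ClsOK (AEP P) (cl p0) X Gp Gw P P := by
  have h0 := (m1_mem hk).1 hp0
  obtain ⟨U1, a1, a2, a3, a4, -⟩ := m1_data hk h0
  obtain ⟨U, b1, b2, b3, b4, -⟩ := m1_data hk hw
  exact r1_win (env p0 h0) a1 (le_refl 1) a4 hX w U (by rw [a2, b2]) b1 (fun h => by omega)
    (fun h => by omega) hty

/-- **a guest at any T-cycle of the class**: no window -/
theorem cls_y1 (hk : j2 + 2 * pkc V + 1 = k)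
    (env : ∀ p0 : Cyc k, Rd (Rd p0).2 = ⟨j2, V⟩ → ClsEnv (AEP P) P P (cl p0))
    {y : Cyc k} (hy : Rd (Rd y).2 = ⟨j2, V⟩) {X : Set (Cyc k)} {p0 : Cyc k}
    (hp0 : cl p0 ∈ vcl k V 0) (hX : ∀ c, cl c = cl p0 → (c ∈ X ↔ c = y)) :
    ∃ Gp Gw, ClsOK (AEP P) (cl p0) X Gp Gw P P := by
  have h0 := (m1_mem hk).1 hp0
  obtain ⟨U1, a1, a2, a3, a4, -⟩ := m1_data hk h0
  obtain ⟨U, b1, b2, b3, b4, -⟩ := m1_data hk hy
  have ho : oddF (j2 + pkc V) 1 := by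
    unfold oddF
    have h1 : Nat.card (Ms (2 * (j2 + pkc V) + 1) 1) = 2 * (j2 + pkc V) + 1 := by
      have e1 : Nat.card (Ms (2 * (j2 + pkc V) + 1) 1) =
          Nat.card (Sym (ZMod (2 * (j2 + pkc V) + 1)) 1) :=
        (Nat.card_congr (Sym.equivNatSumOfFintype (ZMod (2 * (j2 + pkc V) + 1)) 1)).symm
      rw [e1, Nat.card_eq_fintype_card, Sym.card_sym_eq_choose, ZMod.card]
      simp
    rw [h1]
    exact ⟨j2 + pkc V, rfl⟩
  refine r1_guest (env p0 h0) a1 (le_refl 1) a4 ho y U (by rw [a2, b2]) b1 ?_ hX (fun h => by omega)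
    (fun h => by omega)
  rw [b3]
  exact oddF_zero _

/-- **the class `(V; 0, 1)` with a window** -/
theorem part_m1 (hk : j2 + 2 * pkc V + 1 = k)
    (env : ∀ p0 : Cyc k, Rd (Rd p0).2 = ⟨j2, V⟩ → ClsEnv (AEP P) P P (cl p0))
    (hw : ∃ w : Cyc k, Rd (Rd w).2 = ⟨j2, V⟩ ∧ Typd P P {w}) :
    ClsReg P (vcl k V 0 : Set (RD × Multiset ℕ)) := by
  obtain ⟨w, h1, h2⟩ := hw
  exact ClsReg.single fun p0 hp0 =>
    cls_win1 hk env h1 h2 hp0 (fun c hc => absurd hc (Set.notMem_empty _))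

/-- **the region of `V`**, window -/
theorem reg_m1 (hk : j2 + 2 * pkc V + 1 = k)
    (env : ∀ p0 : Cyc k, Rd (Rd p0).2 = ⟨j2, V⟩ → ClsEnv (AEP P) P P (cl p0))
    (hw : ∃ w : Cyc k, Rd (Rd w).2 = ⟨j2, V⟩ ∧ Typd P P {w}) :
    RegOK P ({⟨j2, V⟩} : Set RD) := by
  refine (part_m1 hk env hw).congr fun p => ?_
  rw [m1_mem hk]
  rfl

/-- the region of `V` from a pile over a pile -/
theorem reg_m1' (hk : j2 + 2 * pkc V + 1 = k)
    (env : ∀ p0 : Cyc k, Rd (Rd p0).2 = ⟨j2, V⟩ → ClsEnv (AEP P) P P (cl p0))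
    (hw : NodeW k V (Typd P P) 0 1) : RegOK P ({⟨j2, V⟩} : Set RD) := by
  obtain ⟨v, x2, u, x, w, b1, b2, b3, b4, b5, b6, b7, b8⟩ := hw.data (j := j2 + pkc V) rfl
  exact reg_m1 hk env ⟨cyc w, by rw [b5]; exact b6, b4⟩

end Pool.OddHC
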