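import Pool.Agent.Work.MP_8f87b2_h8.Bd
import Pool.Agent.Work.MP_8f87b2_h8.Iy
import Pool.Agent.Work.MP_8f87b2_h8.M1

/-!
# The windows of the classes `(V; 0, 1)`, `V` with exactly one part 1 and at least two other parts

`TyAm`: the window `R[q + 4]`, `R = B1 (() s) B`, with a marker `[3]` in `B1` or `s`, all parts of `B` at least `q + 4`.
`win_m1`: existence. `TyAm.innerE`: no inner word is a word of an E-triple.
-/

set_option autoImplicit false

namespace Pool.OddHC

open Finset BinaryTree Multiset Pool.OddHop H1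

namespace M1

variable {i j j2 k : ℕ}

/-! ### The top height is reached again -/

/-- `b` returns to the height where it starts -/
def Rt (b : List Bool) : Prop :=
  ∃ n, 0 < n ∧ n ≤ b.length ∧ (b.take n).count true = (b.take n).count false

theorem Rt.append {b : List Bool} (h : Rt b) (c : List Bool) : Rt (b ++ c) := by
  obtain ⟨n, h1, h2, h3⟩ := h
  exact ⟨n, h1, by rw [List.length_append]; omega, by rw [List.take_append_of_le_length h2]; exact h3⟩

/-- the first maximum of `R`: a run `1^4`, or the same height again -/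
def Top (R : BinaryTree Unit) : Prop :=
  (∃ a b, FMR 4 R a b) ∨ ∃ a b, FMR 3 R a b ∧ Rt b

/-- the linked words of a window -/
theorem Top.W {q : ℕ} {R B S : BinaryTree Unit} (h : Top R) (hq : q + 3 ≤ Tsq.ht R) :
    ∀ i ∈ [0, 1, 3, 6, 8, 9], Top (W R (ch (q + 1)) B S i) := by
  intro i hi
  rcases h with ⟨a, b, h⟩ | ⟨a, b, h, hb⟩
  · obtain ⟨a, b, h⟩ := FMR_W h hq i hi (B := B) (S := S)
    exact Or.inl ⟨a, b, h⟩
  · right
    have hn : Tsq.ht (.nil : BinaryTree Unit) = 0 := rfl
    have hc : ∀ n, Tsq.ht (ch n) = n := fun n => by rw [H1.ht_eq, ch_ht]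
    simp only [List.mem_cons, List.not_mem_nil, or_false] at hi
    rcases hi with rfl | rfl | rfl | rfl | rfl | rfl
    · exact ⟨_, _, h.app_right (Z := ch (q + 3)) (by rw [hc]; exact hq), hb.append _⟩
    · exact ⟨_, _, h.app_right (Z := .nil △ app (ch (q + 1)) (.nil △ .nil)) (by
        rw [Tsq.ht_node, Tsq.ht_app, Tsq.ht_node, hc, hn]; omega), hb.append _⟩
    · exact ⟨_, _, (h.app_right (Z := .nil △ ch (q + 1)) (by
        rw [Tsq.ht_node, hc, hn]; omega)).node (Z := .nil) (by rw [hn]; omega),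
        (hb.append _).append _⟩
    · exact ⟨_, _, h.node (Z := ch (q + 2)) (by rw [hc]; omega), hb.append _⟩
    · have k := (h.node (Z := .nil) (by rw [hn]; omega)).app_left
        (P := app (ch (q + 1)) (.nil △ .nil)) (by
          rw [Tsq.ht_node, Tsq.ht_app, Tsq.ht_node, hc, hn]; omega)
      have e : H1.W R (ch (q + 1)) B S 8 = app (app (ch (q + 1)) (.nil △ .nil)) (R △ .nil) := by
        rw [H1.app_assoc]; rfl
      rw [e]
      exact ⟨_, _, k, hb.append _⟩
    · exact ⟨_, _, (h.node (Z := .nil) (by rw [hn]; omega)).node (Z := ch (q + 1)) (by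
        rw [Tsq.ht_node, hc, hn]; omega), (hb.append _).append _⟩

theorem count_map_not (l : List Bool) (x : Bool) : (l.map not).count x = l.count (!x) := by
  induction l with
  | nil => rfl
  | cons a l ih =>
    rw [List.map_cons, List.count_cons, List.count_cons, ih]
    cases a <;> cases x <;> rfl

/-- the inner word is not prime -/
theorem not_prime {x : X k} {a b : List Bool} (h : FM x.1 a b) (hb : Rt b) (Y : BinaryTree Unit) :
    (TT x).1 ≠ Y △ .nil := by
  intro e
  obtain ⟨n, h1, h2, h3⟩ := hb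
  have e1 := h.wdT
  rw [e, wd_node] at e1
  have hY : wd (.nil : BinaryTree Unit) = [] := rfl
  rw [hY] at e1
  -- lengths
  have e2 := congrArg List.length e1
  simp only [List.length_cons, List.length_append, List.length_map, List.length_nil] at e2
  -- the prefix of length `n`
  have e3 := congrArg (List.take n) e1
  rw [List.take_append_of_le_length (by rw [List.length_map]; exact h2), ← List.map_take] at e3
  obtain ⟨m, rfl⟩ : ∃ m, n = m + 1 := ⟨n - 1, by omega⟩
  rw [List.take_succ_cons, List.take_append_of_le_length (by omega)] at e3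
  have c1 := congrArg (List.count true) e3
  have c2 := congrArg (List.count false) e3
  rw [count_map_not] at c1 c2
  rw [List.count_cons] at c1 c2
  have c3 := wd_take Y m
  simp at c1 c2
  omega

/-- no component `[3]` in front -/
def Sh3 (X : BinaryTree Unit) : Prop := ∃ Y, X = pc 2 △ Y

/-- **TYPE Am**: the window of a class `(V; 0, 1)`, `V` with one part 1 -/
def _root_.Pool.OddHC.TyAm (F : Set (Cyc k)) (g : DG k) : Prop :=
  ∃ (q : ℕ) (B1 s B : BinaryTree Unit) (w0 : X k), NodeG k (q + 1) B1 (lv 1 .nil) s B ∧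
    3 ∈ cont (gR B1 (lv 1 .nil) s B) ∧ ¬ Sh3 (gR B1 (lv 1 .nil) s B) ∧
    Top (gR B1 (lv 1 .nil) s B) ∧ F = {cyc (gX (q + 1) B1 (lv 1 .nil) s B w0 0)} ∧
    g = gad20 (gX (q + 1) B1 (lv 1 .nil) s B w0)

theorem _root_.Pool.OddHC.TyAm.toA {F : Set (Cyc k)} {g : DG k} (h : TyAm F g) : TyA F g := by
  obtain ⟨q, B1, s, B, w0, h1, _, _, _, h2, h3⟩ := h
  exact ⟨q + 1, B1, _, s, B, w0, h1, h2, h3⟩

/-- **row I-A-E for marker windows**: no inner word is a word of an E-triple -/
theorem innerE {q : ℕ} {B1 H s B : BinaryTree Unit} (h : NodeG k q B1 H s B)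
    (h3 : 3 ∈ cont (gR B1 H s B)) (ht : Top (gR B1 H s B)) (w0 : X k) {i : ℕ}
    (hi : i ∈ [0, 1, 3, 6, 8, 9]) {F' : Set (Cyc k)} {g' : DG k} (h' : TyE F' g') :
    TT (gX q B1 H s B w0 i) ∉ g'.B := by
  have hi' : i < 20 := by
    simp only [List.mem_cons, List.not_mem_nil, or_false] at hi
    omega
  have a1 := h.size
  have a2 := ht_le_nm (gR B1 H s B)
  have a3 := h.ht
  have a4 := h.hs3
  rcases Top.W (B := B) (S := (Tsq.sq (gR B1 H s B)).1) ht
    (by rw [H1.ht_eq, h.ht]; exact h.big) i hi with ⟨a, b, h1⟩ | ⟨a, b, h1, hb⟩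
  · rw [← h.word w0 hi'] at h1
    obtain ⟨j, r, f, hj, hr, ht'⟩ := h'
    have h4 : 4 ≤ OddHC.ht (gX q B1 H s B w0 i).1 := by
      rw [h.word w0 hi']
      simp only [List.mem_cons, List.not_mem_nil, or_false] at hi
      rcases hi with rfl | rfl | rfl | rfl | rfl | rfl <;>
        simp only [H1.W, ht_app, ht_node] <;> omega
    obtain ⟨c1, c2, c3⟩ := inner_E (g := 4) (by norm_num) h1 (by omega) h4 (r := r.1) (e := lf f)
      (by rw [lf_length, X_num]) hr (Or.inr ⟨le_refl 4, by
        rw [h.word w0 hi']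
        exact (Multiset.one_le_count_iff_mem.2 h3).trans (count_W (by omega) i hi)⟩)
    intro hw
    rcases ht'.words _ hw with e | ⟨_, e | e⟩
    · exact c1 e
    · exact c2 e
    · exact c3 e
  · rw [← h.word w0 hi'] at h1
    obtain ⟨j, r, f, hj, hr, ht'⟩ := h'
    obtain ⟨h5, l, h6⟩ := h1.inner
    intro hw
    rcases ht'.words _ hw with e | ⟨_, e | e⟩
    · exact not_prime h1.fm hb _ e
    · exact inner_last (le_refl 3) h6 e
    · exact inner_first (le_refl 3) h5 e

/-- one part: `[h]` -/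
theorem eq_pc_of_big {A : BinaryTree Unit} (h : ∀ x ∈ cont (A △ .nil), OddHC.ht A + 1 ≤ x) :
    A = pc (OddHC.ht A) := by
  rcases Nat.eq_zero_or_pos (OddHC.ht A) with h0 | h0
  · cases A with
    | nil => rfl
    | node _ C D =>
      exfalso
      change OddHC.ht (C △ D) = 0 at h0
      rw [ht_node] at h0
      omega
  · have hc0 : cont A ≠ 0 := by
      intro h1
      have h2 : A = .nil := cont_eq_zero.1 h1
      subst h2
      exact absurd h0 (Nat.lt_irrefl 0)
    have h7 : (cont A).erase (cont A).sup = 0 := by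
      rw [Multiset.eq_zero_iff_forall_notMem]
      intro x hx
      have h8 : OddHC.ht A + 1 ≤ x := h x (by
        rw [cont_node, cont_nil, add_zero]
        unfold raise
        exact Multiset.mem_cons_of_mem hx)
      have h9 := Multiset.le_sup (Multiset.mem_of_mem_erase hx)
      rw [← OddHC.ht_eq] at h9
      omega
    have h8 := Multiset.cons_erase (sup_mem hc0)
    rw [h7, ← OddHC.ht_eq] at h8
    obtain ⟨n, hn⟩ : ∃ n, OddHC.ht A = n + 1 := ⟨OddHC.ht A - 1, by omega⟩
    rw [hn] at h8 ⊢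
    rw [← ch_eq]
    exact cont_one n h8.symm

/-- `n` pairs around `X` -/
def ns : ℕ → BinaryTree Unit → BinaryTree Unit
  | 0, X => X
  | n + 1, X => ns n X △ .nil

theorem ns_ne {X : BinaryTree Unit} (h : X ≠ .nil) (n : ℕ) : ns n X ≠ .nil := by
  cases n with
  | zero => exact h
  | succ n => rw [ns]; simp

/-- the bead in the peak hole -/
theorem ins_peak (n : ℕ) : ins (pc n) (bump (pc n) (bd n n)) = ns n (lv 2 .nil) := by
  induction n with
  | zero => rfl
  | succ n ih =>
    have e1 := ins_bd_left (A := pc n) (D := .nil) (p := n) (by rw [pc_num]; omega)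
    have e2 : (pc n △ .nil).numNodes = n + 1 := pc_num (n + 1)
    rw [pc_num, e2] at e1
    change ins (pc n △ .nil) (bd (n + 1) (n + 1)) = _
    rw [e1, ih]
    rfl

theorem inf_ns (X : BinaryTree Unit) (h : X ≠ .nil) (n : ℕ) : inf (ns n X) = ns n (inf X) := by
  induction n with
  | zero => rfl
  | succ n ih => rw [ns, inf_node, inf1_eq (ns_ne h n), ih]; rfl

/-- `s` of the peak case -/
theorem peak_s (n : ℕ) : inf (inf (ns n (lv 2 .nil))) = ns n (pc 2 △ (pc 2 △ .nil)) := by
  rw [inf_ns _ (by simp [lv]), inf_ns _ (inf_ne_nil (by simp [lv]))]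
  rfl

/-- its first maximum -/
theorem peak_fm (n : ℕ) : ∃ a c, FM (ns n (pc 2 △ (pc 2 △ .nil))) (a ++ [true, true])
    ([false, false, false, true, true, true] ++ c) ∧
    Tsq.ht (ns n (pc 2 △ (pc 2 △ .nil))) = n + 3 := by
  induction n with
  | zero =>
    refine ⟨[], [false, false, false], ⟨rfl, ?_, rfl⟩, rfl⟩
    intro m
    have e : Tsq.ht (ns 0 (pc 2 △ (pc 2 △ .nil))) = 3 := rfl
    rw [e]
    have := List.count_le_length (a := true) (l := List.take m ([] ++ [true, true]))
    rw [List.length_take] at this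
    simp at this ⊢
    omega
  | succ n ih =>
    obtain ⟨a, c, h1, h2⟩ := ih
    have h3 := h1.node (Z := .nil) (by
      have : Tsq.ht (.nil : BinaryTree Unit) = 0 := rfl
      omega)
    refine ⟨true :: a, c ++ false :: wd .nil, ?_, ?_⟩
    · exact h3
    · change Tsq.ht (ns n _ △ .nil) = _
      rw [Tsq.ht_node, h2]
      have : Tsq.ht (.nil : BinaryTree Unit) = 0 := rfl
      omega

/-- `R = B1 (() s) B` from the first maximum of `s` -/
theorem Top.of_FA {B1 H s B : BinaryTree Unit} {a b : List Bool} (hs : FA s a b)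
    (hH : OddHC.ht H < OddHC.ht s) (h1 : OddHC.ht B1 < OddHC.ht s + 1)
    (hB : OddHC.ht B ≤ OddHC.ht s + 1) : Top (gR B1 H s B) := by
  left
  have e1 : OddHC.ht (app H s) = OddHC.ht s := by rw [ht_app]; omega
  have e2 : OddHC.ht (app H s △ B) = OddHC.ht s + 1 := by rw [ht_node, e1]; omega
  have k1 := hs.app_left hH
  obtain ⟨a', h4⟩ := k1.up
  have k2 := k1.fm.node (Z := B) (by rw [H1.ht_eq, H1.ht_eq, e1]; exact hB)
  have k3 := k2.app_left (P := B1) (by rw [H1.ht_eq, H1.ht_eq, e2]; exact h1)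
  exact ⟨_, _, k3, ⟨wd B1 ++ true :: a', by rw [h4]; simp⟩, k1.dn.cons _⟩

theorem Top.of_peak {n : ℕ} {B1 H B : BinaryTree Unit} (hH : OddHC.ht H < n + 3)
    (h1 : OddHC.ht B1 < n + 3 + 1) (hB : OddHC.ht B ≤ n + 3 + 1) :
    Top (gR B1 H (ns n (pc 2 △ (pc 2 △ .nil))) B) := by
  right
  obtain ⟨a, c, h2, h3⟩ := peak_fm n
  have h3' := h3
  rw [H1.ht_eq] at h3'
  have e1 : OddHC.ht (app H (ns n (pc 2 △ (pc 2 △ .nil)))) = n + 3 := by rw [ht_app]; omega
  have e2 : OddHC.ht (app H (ns n (pc 2 △ (pc 2 △ .nil))) △ B) = n + 3 + 1 := by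
    rw [ht_node, e1]; omega
  have k1 := h2.app_left (P := H) (by rw [H1.ht_eq, h3]; exact hH)
  have k2 := k1.node (Z := B) (by rw [H1.ht_eq, H1.ht_eq, e1]; exact hB)
  have k3 := k2.app_left (P := B1) (by rw [H1.ht_eq, H1.ht_eq, e2]; exact h1)
  refine ⟨_, _, ⟨k3, ⟨wd B1 ++ true :: (wd H ++ a), by simp⟩, Or.inr ⟨c ++ false :: wd B, by simp⟩⟩, ?_⟩
  exact ⟨6, by norm_num, by simp, by simp⟩

/-- the window over a word `r [y + 2]` of `V`, one bead -/
theorem node_of_tall {v : X j2} {r C1 t C : BinaryTree Unit} {y : ℕ} (hv : v.1 = app r (pc (y + 2)))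
    (hT : Tall r C1 t C) (hC : ∀ x ∈ cont C, y + 2 ≤ x) (hr : y + 2 ≤ OddHC.ht r)
    (e0 : j2 + 2 * pkn v.1 + 1 = k) :
    ∃ (u : X (j2 + pkn v.1)) (x : ZMod (2 * (j2 + pkn v.1) + 1)) (w : X k),
      u.1 = ins v.1 (lf fun y : ZMod (2 * j2 + 1) => if y = 0 then 0 else 0) ∧
      w.1 = ins u.1 (lf fun y => if y = x then 1 else 0) ∧
      w.1 = app (gR (inf (inf C1)) (lv 1 .nil) (inf1 (inf1 t)) (inf (inf C))) (pc (y + 4)) ∧
      cont w.1 = (cont v.1).map (· + 2) + {1} ∧
      NodeG k (y + 1) (inf (inf C1)) (lv 1 .nil) (inf1 (inf1 t)) (inf (inf C)) := by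
  have hz : (lf fun y : ZMod (2 * j2 + 1) => if y = 0 then 0 else 0) =
      List.replicate (2 * v.1.numNodes + 1) 0 := by
    rw [X_num, ← lf_zero]
    congr 1
    funext y
    exact ite_self 0
  have hw1' : inf v.1 = app (inf C1) (inf1 t △ app (inf C) (pc (y + 3))) := by
    rw [hv, hT.eq, inf_app, inf_app, inf_node, inf_pc (by omega), app_assoc']
    rfl
  have g1 := ins_num v.1 (List.replicate (2 * v.1.numNodes + 1) 0) List.length_replicate
  rw [List.sum_replicate, smul_zero, add_zero, add_zero, X_num] at g1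
  have g1' : (inf v.1).numNodes = j2 + pkn v.1 ∧ pkn (inf v.1) = pkn v.1 := by
    unfold inf
    rw [X_num]
    exact g1
  obtain ⟨u, hu⟩ : ∃ u : X (j2 + pkn v.1), u.1 = inf v.1 :=
    ⟨⟨_, mem_treesOfNumNodesEq.2 g1'.1⟩, rfl⟩
  obtain ⟨e, he⟩ : ∃ e, e = holeL (inf C1) (inf1 t) (app (inf C) (pc (y + 3))) 1 := ⟨_, rfl⟩
  have hu' : u.1 = app (inf C1) (inf1 t △ app (inf C) (pc (y + 3))) := hu.trans hw1'
  have he1 : e.length = 2 * u.1.numNodes + 1 := by rw [he, holeL_length, ← hu']
  have he2 : e.sum = 1 := by rw [he, holeL_sum]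
  have g2 := ins_num u.1 e he1
  rw [he2, X_num] at g2
  have g3 : pkn u.1 = pkn v.1 := by rw [hu]; exact g1'.2
  rw [g3] at g2
  obtain ⟨w, hw0⟩ : ∃ w : X k, w.1 = ins u.1 e :=
    ⟨⟨_, mem_treesOfNumNodesEq.2 (g2.1.trans (by omega))⟩, rfl⟩
  have hw2 : w.1 = app (gR (inf (inf C1)) (lv 1 .nil) (inf1 (inf1 t)) (inf (inf C))) (pc (y + 4)) := by
    rw [hw0, he, hu', ins_hole, inf_app, inf_pc (by omega)]
    unfold gR
    rw [app_assoc']
    rfl
  have hcw : cont w.1 = (cont v.1).map (· + 2) + {1} := by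
    rw [hw0, cont_ins _ _ he1, he2, hu, cont_inf, Multiset.map_map]
    rfl
  have hR0 : Tall (inf (inf r)) (inf (inf C1)) (inf1 (inf1 t)) (inf (inf C)) := hT.inf.inf
  have hr0 : r ≠ .nil := by
    rintro rfl
    have h1 : OddHC.ht (.nil : BinaryTree Unit) = 0 := rfl
    omega
  have hht : OddHC.ht (inf (inf r)) = OddHC.ht r + 2 := by
    rw [ht_inf (inf_ne_nil hr0), ht_inf hr0]
  refine ⟨u, ((2 * (inf C1).numNodes + 1 : ℕ) : ZMod (2 * (j2 + pkn v.1) + 1)), w, ?_, ?_, hw2, hcw, ?_⟩
  · rw [hz, hu]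
    rfl
  · rw [hw0, he, holeL_lf (by rw [← hu', X_num])]
  · have h5 := nodeG3 (k := k) (q := y + 1) (m := 1) (t := 0) hR0 (fun x hx => by
      rw [cont_inf, cont_inf, Multiset.map_map, Multiset.mem_map] at hx
      obtain ⟨z, hz, rfl⟩ := hx
      have := cont_pos _ _ hz
      change 3 ≤ z + 1 + 1
      omega) (by rw [hht]; omega) (by rw [hht]; omega) (fun x hx => by
      rw [cont_inf, cont_inf, Multiset.map_map, Multiset.mem_map] at hx
      obtain ⟨z, hz, rfl⟩ := hx
      have := hC z hz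
      change y + 1 + 3 ≤ z + 1 + 1
      omega) (by norm_num) (by
      have h3 := X_num w
      rw [hw2, num_app, pc_num] at h3
      change _ + (y + 1) + 3 = k
      change (gR (inf (inf C1)) (lv 1 .nil) (inf1 (inf1 t)) (inf (inf C))).numNodes + (y + 4) = k at h3
      change (gR (inf (inf C1)) (lv 1 .nil) (inf1 (inf1 t)) (inf (inf C))).numNodes + (y + 1) + 3 = k
      omega)
    exact h5

/-- one bead: the list -/
theorem dl_of_sum {b : ZMod (2 * j + 1) → ℕ} (h : ∑ x, b x = 1) : ∃ x, b = dl j x := by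
  obtain ⟨x, hx⟩ : ∃ x, b x ≠ 0 := by
    by_contra hc
    push Not at hc
    rw [Finset.sum_eq_zero fun x _ => hc x] at h
    exact absurd h (by norm_num)
  refine ⟨x, ?_⟩
  rw [← Finset.add_sum_erase univ b (mem_univ x)] at h
  have h1 : b x = 1 := by omega
  have h2 : ∑ y ∈ univ.erase x, b y = 0 := by omega
  funext y
  unfold dl
  by_cases hy : y = x
  · rw [if_pos hy, hy, h1]
  · rw [if_neg hy]
    exact (Finset.sum_eq_zero_iff.1 h2) y (Finset.mem_erase.2 ⟨hy, mem_univ y⟩)

theorem lf_dl_bd {p : ℕ} (h : p ≤ 2 * j) : lf (dl j (p : ZMod (2 * j + 1))) = bd j p :=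
  (pile_lf (x := p) (y := 2 * j - p) (n := 1) (by omega)).symm

/-- **THE WINDOW** of a class `(V; 0, 1)`, `V` with exactly one part 1 and two other parts -/
theorem win_m1 (V : Cyc j2) (hk : j2 + 2 * pkc V + 1 = k) (h3 : 3 ≤ pkc V)
    (h1 : (contc V).count 1 = 1) : NodeW k V (fun F => ∃ g, TyAm F g) 0 1 := by
  obtain ⟨z, rfl⟩ : ∃ z : X j2, cyc z = V := Quotient.exists_rep V
  rw [pkc_cyc] at hk h3
  rw [contc_cyc] at h1
  obtain ⟨j0, u, e, he, hw, _, hpk⟩ := red_ex z
  have he' : e.length = 2 * u.1.numNodes + 1 := by rw [X_num]; exact he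
  have hs : e.sum = 1 := by rw [← count_one_ins u.1 e he', ← hw, h1]
  have hcz : cont z.1 = (cont u.1).map (· + 1) + {1} := by
    rw [hw, cont_ins _ _ he', hs]
    rfl
  obtain ⟨b, rfl⟩ := exists_lf he
  rw [hs] at hpk
  rw [lf_sum] at hs
  obtain ⟨x, rfl⟩ := dl_of_sum hs
  have hne : cont u.1 ≠ 0 := by
    intro h
    have h2 := cont_card u.1
    rw [h, Multiset.card_zero] at h2
    have h4 : pkn u.1 = 0 := h2.symm
    omega
  obtain ⟨b, hb, hmin⟩ := exists_min hne
  have hb1 : 1 ≤ b := cont_pos _ _ hb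
  obtain ⟨y, rfl⟩ : ∃ y, b = y + 1 := ⟨b - 1, by omega⟩
  obtain ⟨t, p, ρ, hp1, hp2, h4, h5⟩ := phase_p hw hmin hb
  obtain ⟨uu, huu⟩ : ∃ uu, uu = (TT ^ t) u := ⟨_, rfl⟩
  obtain ⟨v, hv⟩ : ∃ v, v = (TT ^ t) z := ⟨_, rfl⟩
  rw [← huu] at h4 h5
  rw [← hv] at h5
  have hcu : cont uu.1 = cont u.1 := by
    rw [huu]
    exact (cont_same ⟨(t : ℤ), by rw [zpow_natCast]⟩).symm
  have hsv : (TT : Equiv.Perm (X j2)).SameCycle z v := by
    rw [hv]
    exact ⟨(t : ℤ), by rw [zpow_natCast]⟩
  have hcv : cyc v = cyc z := (cyc_eq.2 hsv).symm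
  have hcv2 : cont v.1 = (cont u.1).map (· + 1) + {1} := by rw [← hcz, cont_same hsv]
  have hpv : pkn v.1 = pkn z.1 := by rw [← cont_card, ← cont_same hsv, cont_card]
  have hcr : cont u.1 = cont ρ + {y + 1} := by rw [← hcu, h4, cont_app, cont_pc]
  have hρ : ρ ≠ .nil := by
    rintro rfl
    have h2 := cont_card u.1
    rw [hcr, cont_nil, zero_add, Multiset.card_singleton] at h2
    have h6 : pkn u.1 = 1 := h2.symm
    omega
  obtain ⟨A, D, rfl⟩ : ∃ A D, ρ = A △ D := by
    cases ρ with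
    | nil => exact absurd rfl hρ
    | node _ A D => exact ⟨A, D, rfl⟩
  have hpart : ∀ w ∈ raise (cont A) + cont D, y + 1 ≤ w := by
    intro w hw'
    apply hmin
    rw [hcr, cont_node]
    exact Multiset.mem_add.2 (Or.inl hw')
  have hAh : y + 1 ≤ OddHC.ht A + 1 := by
    rw [OddHC.ht_eq]
    apply hpart
    refine Multiset.mem_add.2 (Or.inl ?_)
    unfold raise
    exact Multiset.mem_cons_self _ _
  have hAn := ht_le_nm A
  obtain ⟨q, rfl⟩ : ∃ q, p = q + 1 := ⟨p - 1, by omega⟩
  have hj0 : j0 = (A △ app D (pc (y + 1))).numNodes := by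
    rw [← X_num uu, h4]
    rfl
  obtain ⟨A', hA'⟩ : ∃ A', A' = ins A (bump A (bd A.numNodes q)) := ⟨_, rfl⟩
  have hA'0 : A' ≠ .nil := by rw [hA']; exact ins_ne_nil _ _
  have hvw : v.1 = app (A' △ inf D) (pc (y + 2)) := by
    rw [h5, lf_dl_bd (by rw [hj0]; change q + 1 ≤ 2 * (A.numNodes + _ + 1); omega), h4]
    have e1 : app (A △ D) (pc (y + 1)) = A △ app D (pc (y + 1)) := rfl
    rw [e1, hj0, ins_bd_left (by omega), inf_app, inf_pc (by omega), ← hA']
    rfl
  have hA'h : 1 ≤ OddHC.ht A' := ht_pos hA'0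
  have hD' : ∀ w ∈ cont (inf D), y + 2 ≤ w := by
    intro w hw'
    rw [cont_inf] at hw'
    obtain ⟨w', h6, rfl⟩ := Multiset.mem_map.1 hw'
    have := hpart w' (Multiset.mem_add.2 (Or.inr h6))
    omega
  have hr : y + 2 ≤ OddHC.ht (A' △ inf D) := by
    have h6 : cont (A' △ inf D) = (cont (A △ D)).map (· + 1) + {1} := by
      have h7 := hcv2
      rw [hvw, cont_app, cont_pc, hcr, Multiset.map_add, Multiset.map_singleton] at h7
      have h8 : cont (A' △ inf D) + {y + 1 + 1} =
          (cont (A △ D)).map (· + 1) + {1} + {y + 1 + 1} := h7.trans (add_right_comm _ _ _)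
      exact add_right_cancel h8
    rw [OddHC.ht_eq, h6]
    have h7 : (cont A).sup + 1 + 1 ∈ (cont (A △ D)).map (· + 1) + {1} := by
      refine Multiset.mem_add.2 (Or.inl (Multiset.mem_map_of_mem _ ?_))
      rw [cont_node]
      refine Multiset.mem_add.2 (Or.inl ?_)
      unfold raise
      exact Multiset.mem_cons_self _ _
    have h8 := Multiset.le_sup h7
    rw [← OddHC.ht_eq A] at h8
    omega
  -- the rest from the tallest component
  suffices hmain : ∃ C1 t C, Tall (A' △ inf D) C1 t C ∧ (∀ x ∈ cont C, y + 2 ≤ x) ∧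
      Top (gR (inf (inf C1)) (lv 1 .nil) (inf1 (inf1 t)) (inf (inf C))) ∧
      ¬ Sh3 (gR (inf (inf C1)) (lv 1 .nil) (inf1 (inf1 t)) (inf (inf C))) by
    obtain ⟨C1, t, C, c1, c2, c3, c4⟩ := hmain
    obtain ⟨u', x', w, d1, d2, d3, d4, d5⟩ := node_of_tall (k := k) hvw c1 c2 hr (by rw [hpv]; exact hk)
    refine ⟨_, v, 0, u', x', w, hcv, d1, d2, _, y, _, _, _, w, d5, ?_, c4, c3, ?_, rfl⟩
    · have h6 : 3 ∈ cont w.1 := by
        rw [d4]
        refine Multiset.mem_add.2 (Or.inl ?_)
        rw [show (3 : ℕ) = 1 + 2 from rfl]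
        apply Multiset.mem_map_of_mem (· + 2)
        rw [hcv2]
        exact Multiset.mem_add.2 (Or.inr (Multiset.mem_singleton_self 1))
      rw [d3, cont_app, cont_pc] at h6
      rcases Multiset.mem_add.1 h6 with h6 | h6
      · exact h6
      · have := Multiset.mem_singleton.1 h6
        omega
    · have h6 := d5.word w (i := 0) (by norm_num)
      have h7 : w = gX (y + 1) (inf (inf C1)) (lv 1 .nil) (inf1 (inf1 t)) (inf (inf C)) w 0 := by
        apply Subtype.ext
        rw [h6, d3]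
        change _ = app (gR _ _ _ _) (ch (y + 1 + 3))
        rw [ch_eq]
      rw [← h7]
  have hHt : OddHC.ht (lv 1 (.nil : BinaryTree Unit)) = 1 := rfl
  have hn0 : OddHC.ht (.nil : BinaryTree Unit) = 0 := rfl
  rcases Nat.lt_or_ge (OddHC.ht A' + 1) (OddHC.ht (inf D)) with hcase | hcase
  · -- the tallest component is in `D`
    have hD0 : inf D ≠ .nil := by
      intro h
      rw [h] at hcase
      omega
    obtain ⟨C1, t, C, c1, c2, c3⟩ := exists_tall hD0
    have ht2 : 2 ≤ OddHC.ht t := by omega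
    have ht0 : t ≠ .nil := by
      rintro rfl
      omega
    have hCt : OddHC.ht C ≤ OddHC.ht (inf D) := by
      rw [c1, ht_app, ht_node]
      omega
    refine ⟨A' △ C1, t, C, ⟨by rw [c1]; rfl, ?_, ?_⟩, ?_, ?_, ?_⟩
    · rw [ht_node]; omega
    · rw [ht_node, ht_node]; omega
    · intro x hx
      apply hD'
      rw [c1, cont_app, cont_node]
      exact Multiset.mem_add.2 (Or.inr (Multiset.mem_add.2 (Or.inr hx)))
    · have hst : inf1 (inf1 t) = inf (inf t) := by rw [inf1_eq ht0, inf1_eq (inf_ne_nil ht0)]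
      have hts : OddHC.ht (inf (inf t)) = OddHC.ht t + 2 := by
        rw [ht_inf (inf_ne_nil ht0), ht_inf ht0]
      rw [hst]
      obtain ⟨a, b, hfa⟩ := FA_of_hg (t := inf (inf t)) (hg_of_cont (by norm_num) (fun x hx => by
        rw [cont_inf, cont_inf, Multiset.map_map, Multiset.mem_map] at hx
        obtain ⟨w, hw', rfl⟩ := hx
        change 4 ≤ w + 1 + 1
        by_cases hws : w = (cont t).sup
        · rw [hws, ← OddHC.ht_eq]
          omega
        · have h6 : w ∈ cont (inf D) := by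
            rw [c1, cont_app, cont_node]
            refine Multiset.mem_add.2 (Or.inr (Multiset.mem_add.2 (Or.inl ?_)))
            unfold raise
            exact Multiset.mem_cons_of_mem ((Multiset.mem_erase_of_ne hws).2 hw')
          have := hD' w h6
          omega)) (inf_ne_nil (inf_ne_nil ht0))
      have hB1 : OddHC.ht (inf (inf (A' △ C1))) ≤ OddHC.ht (A' △ C1) + 2 := by
        have := ht_inf_le (inf (A' △ C1))
        have := ht_inf_le (A' △ C1)
        omega
      have hBC : OddHC.ht (inf (inf C)) ≤ OddHC.ht C + 2 := by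
        have := ht_inf_le (inf C)
        have := ht_inf_le C
        omega
      rw [ht_node] at hB1
      exact Top.of_FA hfa (by omega) (by omega) (by omega)
    · rintro ⟨Y, hY⟩
      rw [inf_node, inf_node] at hY
      have h6 : inf1 (inf1 A') = pc 2 := by
        unfold gR at hY
        exact (node_inj hY).1
      have h7 := congrArg OddHC.ht h6
      rw [ht_inf1, ht_inf1, ht_pc] at h7
      omega
  · -- the tallest component is the first one
    have hst : inf1 (inf1 A') = inf (inf A') := by rw [inf1_eq hA'0, inf1_eq (inf_ne_nil hA'0)]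
    have hts : OddHC.ht (inf (inf A')) = OddHC.ht A' + 2 := by
      rw [ht_inf (inf_ne_nil hA'0), ht_inf hA'0]
    refine ⟨.nil, A', inf D, ⟨rfl, ?_, ?_⟩, hD', ?_, ?_⟩
    · rw [ht_node]; omega
    · rw [ht_node]; omega
    · have hBC : OddHC.ht (inf (inf (inf D))) ≤ OddHC.ht (inf D) + 2 := by
        have := ht_inf_le (inf (inf D))
        have := ht_inf_le (inf D)
        omega
      have hB1 : OddHC.ht (inf (inf (.nil : BinaryTree Unit))) = 0 := rfl
      rw [hst]
      rcases Nat.lt_or_ge q (OddHC.ht A) with h6 | h6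
      · have hA0 : A ≠ .nil := by
          rintro rfl
          exact absurd h6 (Nat.not_lt_zero _)
        have hbp : bump A (bd A.numNodes q) = bd A.numNodes q := by
          cases A with
          | nil => exact absurd rfl hA0
          | node _ _ _ => rfl
        rw [hbp] at hA'
        obtain ⟨-, a, b, hfa⟩ := fm_bead A q h6
        rw [← hA'] at hfa
        exact Top.of_FA hfa (by omega) (by omega) (by omega)
      · have hq : q = OddHC.ht A := by omega
        have hy : y = OddHC.ht A := by omega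
        have hpc : A = pc (OddHC.ht A) := eq_pc_of_big (fun x hx => by
          rw [cont_node, cont_nil, add_zero] at hx
          have := hpart x (Multiset.mem_add.2 (Or.inl hx))
          omega)
        have hA'2 : A' = ns q (lv 2 .nil) := by
          rw [hA', hpc, pc_num, ← hq]
          exact ins_peak q
        rw [hA'2, peak_s]
        have h7 : OddHC.ht A' + 2 = q + 3 := by
          rw [← hts, hA'2, peak_s]
          obtain ⟨a, c, h8, h9⟩ := peak_fm q
          rw [← H1.ht_eq]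
          exact h9
        exact Top.of_peak (by omega) (by omega) (by omega)
    · rintro ⟨Y, hY⟩
      have h6 : (.nil △ inf1 (inf1 A') : BinaryTree Unit) = pc 2 := by
        unfold gR at hY
        exact (node_inj hY).1
      have h7 : (.nil : BinaryTree Unit) = pc 1 := (node_inj h6).1
      exact absurd h7 (by simp [pc])

/-- **the region of `V`** -/
theorem reg_m1B {τ : Type} {P : τ → Set (Cyc k) → DG k → Prop} {V : Cyc j2}
    (hk : j2 + 2 * pkc V + 1 = k) (h3 : 3 ≤ pkc V) (h1 : (contc V).count 1 = 1)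
    (env : ∀ p0 : Cyc k, Rd (Rd p0).2 = ⟨j2, V⟩ → ClsEnv (AEP P) P P (cl p0))
    (ty : ∀ F g, TyAm F g → Typd P P F) : RegOK P ({⟨j2, V⟩} : Set RD) := by
  obtain ⟨j', v, x2, u, x, w, b1, b2, b3, g, b4⟩ := win_m1 V hk h3 h1
  exact reg_m1' hk env ⟨j', v, x2, u, x, w, b1, b2, b3, ty _ _ b4⟩

end M1

end Pool.OddHC
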